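import Pool.Agent.N9.SM.Sn
import Pool.Agent.N836.SM.Stm

/-!
# Permutations give conjugates (part D)
-/

set_option autoImplicit false

namespace Pool.Agent.N9.SM
open Pool.Agent.N836.SM

/-- Vandermonde: a vector orthogonal to all powers of distinct elements is zero. -/
lemma vander {Ω I : Type} [Field Ω] [Fintype I] (θ v : I → Ω) (hθ : Function.Injective θ)
    (h : ∀ e : ℕ, ∑ x, v x * θ x ^ e = 0) : v = 0 := by
  classical
  let E := Fintype.equivFin I
  have h1 : (fun k => v (E.symm k)) = 0 := by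
    apply Matrix.eq_zero_of_forall_pow_sum_mul_pow_eq_zero (f := fun k => θ (E.symm k))
      (hθ.comp E.symm.injective)
    intro i
    rw [← h i]
    exact Fintype.sum_equiv E.symm _ _ (fun k => rfl)
  funext x
  have := congrFun h1 (E x)
  simpa using this

/-- the permutation of `Fin (M+1) × Fin N` which is `π` in the rows `< m` -/
def Pi {M N : ℕ} (m : ℕ) (π : Equiv.Perm (Fin N)) : Equiv.Perm (Fin M × Fin N) where
  toFun x := if (x.1 : ℕ) < m then (x.1, π x.2) else x
  invFun x := if (x.1 : ℕ) < m then (x.1, π.symm x.2) else x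
  left_inv x := by
    by_cases h : (x.1 : ℕ) < m <;> simp [h]
  right_inv x := by
    by_cases h : (x.1 : ℕ) < m <;> simp [h]

theorem partD : S_D := by
  intro K _ _ n N a c hc π hrel
  classical
  rcases Nat.eq_zero_or_pos n with hn | hn
  · subst hn
    exact ⟨fun i => i.elim0, fun i => i.elim0, fun i => i.elim0, by simp⟩
  set Ω := AlgebraicClosure K with hΩ
  have : Algebra.IsAlgebraic ℚ Ω := Algebra.IsAlgebraic.trans ℚ K Ω
  -- the finite set of tuples of embeddings
  let T := Fin n → (K →ₐ[ℚ] Ω)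
  have : Fintype T := inferInstance
  let M := Fintype.card T
  obtain ⟨θ, hθ, hσ⟩ := exists_theta Ω (Fin M × Fin N)
  choose σ hσ using fun (m : Fin (M + 1)) (i : Fin n) => hσ (Pi m (π i))
  -- pigeonhole
  let res : Fin (M + 1) → T := fun m i =>
    ((σ m i : Ω ≃ₐ[ℚ] Ω) : Ω →ₐ[ℚ] Ω).comp (IsScalarTower.toAlgHom ℚ K Ω)
  obtain ⟨m₁, m₂, hne, hres⟩ : ∃ m₁ m₂, m₁ < m₂ ∧ res m₁ = res m₂ := by
    obtain ⟨x, y, hxy, h⟩ := Fintype.exists_ne_map_eq_of_card_lt res (by simp [M])
    rcases lt_or_gt_of_ne hxy with h' | h'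
    · exact ⟨x, y, h', h⟩
    · exact ⟨y, x, h', h.symm⟩
  have hfix : ∀ i (y : K), σ m₁ i (algebraMap K Ω y) = σ m₂ i (algebraMap K Ω y) := by
    intro i y
    exact DFunLike.congr_fun (congrFun hres i) y
  -- the automorphisms over K
  let τ : Fin n → (Ω ≃ₐ[K] Ω) := fun i =>
    AlgEquiv.ofRingEquiv (f := ((σ m₂ i).trans (σ m₁ i).symm).toRingEquiv) (by
      intro y
      change (σ m₁ i).symm (σ m₂ i (algebraMap K Ω y)) = algebraMap K Ω y
      rw [← hfix, AlgEquiv.symm_apply_apply])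
  have hτ : ∀ i x, τ i x = (σ m₁ i).symm (σ m₂ i x) := fun i x => rfl
  have hτθ : ∀ i (b : Fin M) (k : Fin N), m₁.1 ≤ b.1 → b.1 < m₂.1 →
      τ i (θ (b, k)) = θ (b, π i k) := by
    intro i b k h1 h2
    rw [hτ, hσ m₂ i, AlgEquiv.symm_apply_eq, hσ m₁ i]
    congr 1
    simp [Pi, h2, Nat.not_lt.mpr h1]
  -- the vector
  let v : Fin M × Fin N → Ω := fun x =>
    if m₁.1 ≤ x.1.1 ∧ x.1.1 < m₂.1 then algebraMap K Ω (c x.2) else 0
  have hv : v ≠ 0 := by
    intro h
    apply hc
    funext k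
    have hm : m₁.1 < M := lt_of_lt_of_le (show m₁.1 < m₂.1 from hne) (Nat.lt_succ_iff.mp m₂.2)
    have := congrFun h (⟨m₁.1, hm⟩, k)
    have hne' : m₁.1 < m₂.1 := hne
    simp only [v, le_refl, hne', and_self, if_true, Pi.zero_apply] at this
    exact (map_eq_zero _).mp this
  obtain ⟨e, he⟩ : ∃ e : ℕ, ∑ x, v x * θ x ^ e ≠ 0 := by
    by_contra hcon
    push Not at hcon
    exact hv (vander θ v hθ hcon)
  set A := ∑ x, v x * θ x ^ e with hA
  refine ⟨fun i => (τ i).symm A, fun i h => he ((map_eq_zero _).mp h), ?_, ?_⟩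
  · intro i j
    have h1 : ∀ i, minpoly K ((τ i).symm A) = minpoly K A := fun i =>
      minpoly.algEquiv_eq (τ i).symm A
    simp only [h1]
  · have h1 : ∀ i, (τ i).symm A =
        ∑ x : Fin M × Fin N, (if m₁.1 ≤ x.1.1 ∧ x.1.1 < m₂.1 then
          algebraMap K Ω (c (π i x.2)) * θ x ^ e else 0) := by
      intro i
      rw [AlgEquiv.symm_apply_eq, map_sum, hA]
      rw [Fintype.sum_prod_type, Fintype.sum_prod_type]
      apply Finset.sum_congr rfl
      intro b _
      by_cases hb : m₁.1 ≤ b.1 ∧ b.1 < m₂.1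
      · simp only [v, hb, and_self, if_true]
        rw [← Equiv.sum_comp (π i)]
        apply Finset.sum_congr rfl
        intro k _
        rw [map_mul, map_pow, AlgEquiv.commutes, hτθ i b k hb.1 hb.2]
      · simp [v, hb]
    simp only [h1, Finset.mul_sum]
    rw [Finset.sum_comm]
    apply Finset.sum_eq_zero
    intro x _
    by_cases hb : m₁.1 ≤ x.1.1 ∧ x.1.1 < m₂.1
    · simp only [hb, and_self, if_true, ← mul_assoc, ← Finset.sum_mul]
      have := congrArg (algebraMap K Ω) (hrel x.2)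
      rw [map_sum, map_zero] at this
      simp only [map_mul] at this
      rw [this, zero_mul]
    · simp [hb]

end Pool.Agent.N9.SM
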