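import Mathlib

/-!
# Symmetric groups over `ℚ`

Brauer's polynomials `(X² + 4) (X - 2) (X - 4) ⋯ (X - 2n) - 2` of prime degree have full Galois
group over `ℚ`; hence every permutation of a finite set is induced by an automorphism of an
algebraic closure of `ℚ`.
-/

set_option autoImplicit false
open Polynomial

namespace Pool.Agent.N9.SM

noncomputable def hZ (n : ℕ) : ℤ[X] := ∏ j ∈ Finset.range n, (X - C (2 * ((j : ℤ) + 1)))
noncomputable def gZ (n : ℕ) : ℤ[X] := (X ^ 2 + C 4) * hZ n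
noncomputable def fZ (n : ℕ) : ℤ[X] := gZ n - C 2

lemma hZ_monic (n : ℕ) : (hZ n).Monic := monic_prod_of_monic _ _ fun _ _ => monic_X_sub_C _

lemma hZ_natDegree (n : ℕ) : (hZ n).natDegree = n := by
  unfold hZ
  rw [natDegree_prod_of_monic _ _ (fun _ _ => monic_X_sub_C _)]
  simp only [natDegree_X_sub_C, Finset.sum_const, Finset.card_range, smul_eq_mul, mul_one]

lemma q_monic : ((X : ℤ[X]) ^ 2 + C 4).Monic := monic_X_pow_add_C _ (by norm_num)

lemma q_natDegree : ((X : ℤ[X]) ^ 2 + C 4).natDegree = 2 := natDegree_X_pow_add_C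

lemma gZ_monic (n : ℕ) : (gZ n).Monic := q_monic.mul (hZ_monic n)

lemma gZ_natDegree (n : ℕ) : (gZ n).natDegree = n + 2 := by
  unfold gZ
  rw [q_monic.natDegree_mul (hZ_monic n), q_natDegree, hZ_natDegree, add_comm]

lemma fZ_natDegree (n : ℕ) : (fZ n).natDegree = n + 2 := by
  unfold fZ
  rw [natDegree_sub_C, gZ_natDegree]

lemma fZ_monic (n : ℕ) : (fZ n).Monic := by
  unfold fZ
  apply (gZ_monic n).sub_of_left
  calc (C (2 : ℤ)).degree ≤ 0 := degree_C_le
    _ < (gZ n).degree := by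
      rw [← natDegree_pos_iff_degree_pos, gZ_natDegree]
      omega

lemma map_fZ_two (n : ℕ) : (fZ n).map (Int.castRingHom (ZMod 2)) = X ^ (n + 2) := by
  have h2 : (Int.castRingHom (ZMod 2)) 2 = 0 := by rw [eq_intCast]; decide
  have h4 : (Int.castRingHom (ZMod 2)) 4 = 0 := by rw [eq_intCast]; decide
  unfold fZ gZ hZ
  simp only [Polynomial.map_sub, Polynomial.map_mul, Polynomial.map_add, Polynomial.map_pow,
    Polynomial.map_prod, Polynomial.map_X, Polynomial.map_C, map_mul, h2, h4,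
    zero_mul, map_zero, add_zero, sub_zero, Finset.prod_const, Finset.card_range]
  rw [← pow_add, add_comm]

lemma fZ_coeff_zero (n : ℕ) : (fZ n).coeff 0 = 4 * ∏ j ∈ Finset.range n, (-(2 * ((j : ℤ) + 1))) - 2 := by
  rw [coeff_zero_eq_eval_zero]
  unfold fZ gZ hZ
  simp [eval_prod]

lemma fZ_irreducible (n : ℕ) : Irreducible (fZ n) := by
  have hprime : (Ideal.span {(2 : ℤ)}).IsPrime := by
    rw [Ideal.span_singleton_prime (by norm_num)]
    exact Int.prime_two
  apply irreducible_of_eisenstein_criterion hprime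
  · rw [(fZ_monic n).leadingCoeff, Ideal.mem_span_singleton]
    norm_num
  · intro k hk
    rw [degree_eq_natDegree (fZ_monic n).ne_zero, fZ_natDegree] at hk
    have hk' : k < n + 2 := by exact_mod_cast hk
    rw [Ideal.mem_span_singleton]
    have h := congrArg (fun p => p.coeff k) (map_fZ_two n)
    simp only [coeff_map, coeff_X_pow, if_neg hk'.ne, eq_intCast] at h
    exact (ZMod.intCast_zmod_eq_zero_iff_dvd _ 2).mp h
  · rw [← natDegree_pos_iff_degree_pos, fZ_natDegree]
    omega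
  · rw [fZ_coeff_zero, pow_two, Ideal.span_singleton_mul_span_singleton, Ideal.mem_span_singleton]
    intro h
    omega
  · exact (fZ_monic n).isPrimitive

noncomputable def fQ (n : ℕ) : ℚ[X] := (fZ n).map (Int.castRingHom ℚ)

lemma fQ_irreducible (n : ℕ) : Irreducible (fQ n) :=
  (IsPrimitive.Int.irreducible_iff_irreducible_map_cast (fZ_monic n).isPrimitive).mp
    (fZ_irreducible n)

lemma fQ_monic (n : ℕ) : (fQ n).Monic := (fZ_monic n).map _

lemma fQ_natDegree (n : ℕ) : (fQ n).natDegree = n + 2 := by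
  unfold fQ
  rw [(fZ_monic n).natDegree_map, fZ_natDegree]

lemma aeval_fQ (A : Type) [Field A] [Algebra ℚ A] (n : ℕ) (x : A) :
    aeval x (fQ n) = (x ^ 2 + 4) * ∏ j ∈ Finset.range n, (x - 2 * ((j : A) + 1)) - 2 := by
  unfold fQ fZ gZ hZ
  simp only [Polynomial.map_sub, Polynomial.map_mul, Polynomial.map_add, Polynomial.map_pow,
    Polynomial.map_prod, Polynomial.map_X, Polynomial.map_C, map_sub, map_mul, map_add,
    map_pow, aeval_X, map_prod, aeval_C]
  simp

/-- the product at odd points beyond all the roots -/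
lemma prod_ge (n k : ℕ) (h : n ≤ k) :
    (1 : ℝ) ≤ ∏ j ∈ Finset.range n, (((2 * k + 1 : ℕ) : ℝ) - 2 * ((j : ℝ) + 1)) := by
  induction n with
  | zero => simp
  | succ n ih =>
    rw [Finset.prod_range_succ]
    have h1 := ih (by omega)
    have h2 : (1 : ℝ) ≤ ((2 * k + 1 : ℕ) : ℝ) - 2 * ((n : ℝ) + 1) := by
      have : (n : ℝ) + 1 ≤ k := by exact_mod_cast h
      push_cast
      linarith
    nlinarith

lemma prod_sign (n k : ℕ) (h : k ≤ n) :
    (1 : ℝ) ≤ (-1) ^ (n - k) *
      ∏ j ∈ Finset.range n, (((2 * k + 1 : ℕ) : ℝ) - 2 * ((j : ℝ) + 1)) := by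
  induction n with
  | zero => simp
  | succ n ih =>
    rcases Nat.lt_or_ge n k with hk | hk
    · have hk' : k = n + 1 := by omega
      subst hk'
      simpa using prod_ge (n + 1) (n + 1) le_rfl
    · rw [Finset.prod_range_succ, show n + 1 - k = (n - k) + 1 by omega, pow_succ]
      have h1 := ih hk
      have h2 : ((2 * k + 1 : ℕ) : ℝ) - 2 * ((n : ℝ) + 1) ≤ -1 := by
        have : (k : ℝ) ≤ n := by exact_mod_cast hk
        push_cast
        linarith
      set P := ∏ j ∈ Finset.range n, (((2 * k + 1 : ℕ) : ℝ) - 2 * ((j : ℝ) + 1)) with hP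
      set E := ((-1 : ℝ)) ^ (n - k) with hE
      set F := ((2 * k + 1 : ℕ) : ℝ) - 2 * ((n : ℝ) + 1) with hF
      have : E * -1 * (P * F) = (E * P) * (-F) := by ring
      rw [this]
      nlinarith

/-- the real function -/
noncomputable def fr (n : ℕ) (x : ℝ) : ℝ :=
  (x ^ 2 + 4) * ∏ j ∈ Finset.range n, (x - 2 * ((j : ℝ) + 1)) - 2

lemma fr_cont (n : ℕ) : Continuous (fr n) := by
  unfold fr
  fun_prop

lemma fr_sign (n k : ℕ) (h : k ≤ n) : 0 < (-1) ^ (n - k) * fr n ((2 * k + 1 : ℕ) : ℝ) := by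
  unfold fr
  have h1 := prod_sign n k h
  set P := ∏ j ∈ Finset.range n, (((2 * k + 1 : ℕ) : ℝ) - 2 * ((j : ℝ) + 1)) with hP
  set E := ((-1 : ℝ)) ^ (n - k) with hE
  have hE1 : E ≤ 1 := by
    rcases neg_one_pow_eq_or ℝ (n - k) with h | h <;> rw [hE, h] <;> norm_num
  have hx : (0 : ℝ) ≤ ((2 * k + 1 : ℕ) : ℝ) ^ 2 := sq_nonneg _
  have : E * ((((2 * k + 1 : ℕ) : ℝ) ^ 2 + 4) * P - 2) =
    (((2 * k + 1 : ℕ) : ℝ) ^ 2 + 4) * (E * P) - 2 * E := by ring
  rw [this]
  nlinarith

lemma fr_root (n k : ℕ) (h : k < n) :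
    ∃ r : ℝ, ((2 * k + 1 : ℕ) : ℝ) < r ∧ r < ((2 * (k + 1) + 1 : ℕ) : ℝ) ∧ fr n r = 0 := by
  have h1 := fr_sign n k h.le
  have h2 := fr_sign n (k + 1) h
  have hE : ((-1 : ℝ)) ^ (n - k) = - (-1) ^ (n - (k + 1)) := by
    rw [show n - k = (n - (k + 1)) + 1 by omega, pow_succ]
    ring
  set a := ((2 * k + 1 : ℕ) : ℝ) with ha
  set b := ((2 * (k + 1) + 1 : ℕ) : ℝ) with hb
  have hab : a ≤ b := by rw [ha, hb]; push_cast; linarith
  rw [hE] at h1
  have hmem : (0 : ℝ) ∈ Set.uIcc (fr n a) (fr n b) := by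
    rcases neg_one_pow_eq_or ℝ (n - (k + 1)) with h | h <;> rw [h] at h1 h2
    · rw [Set.mem_uIcc]
      left
      constructor <;> linarith
    · rw [Set.mem_uIcc]
      right
      constructor <;> linarith
  obtain ⟨r, hr, hr0⟩ := intermediate_value_uIcc (f := fr n) (fr_cont n).continuousOn hmem
  rw [Set.uIcc_of_le hab] at hr
  refine ⟨r, lt_of_le_of_ne hr.1 ?_, lt_of_le_of_ne hr.2 ?_, hr0⟩
  · intro e
    rw [e, hr0] at h1
    simp at h1
  · intro e
    rw [← e, hr0] at h2
    simp at h2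

lemma mem_root_real (n : ℕ) (r : ℝ) (h : fr n r = 0) : r ∈ (fQ n).rootSet ℝ := by
  rw [mem_rootSet]
  refine ⟨(fQ_monic n).ne_zero, ?_⟩
  rw [aeval_fQ]
  exact h

lemma card_real (n : ℕ) : n ≤ Fintype.card ((fQ n).rootSet ℝ) := by
  choose r hr1 hr2 hr0 using fun k : Fin n => fr_root n k k.2
  have hmono : StrictMono r := by
    intro k l hkl
    have h1 := hr2 k
    have h2 := hr1 l
    have h3 : ((2 * ((k : ℕ) + 1) + 1 : ℕ) : ℝ) ≤ ((2 * (l : ℕ) + 1 : ℕ) : ℝ) := by
      have : (k : ℕ) + 1 ≤ l := hkl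
      exact_mod_cast (by omega : 2 * ((k : ℕ) + 1) + 1 ≤ 2 * (l : ℕ) + 1)
    linarith
  have := Fintype.card_le_of_injective (fun k : Fin n => (⟨r k, mem_root_real n _ (hr0 k)⟩ :
    (fQ n).rootSet ℝ)) (fun k l h => hmono.injective (congrArg Subtype.val h))
  simpa using this

lemma card_alg (n : ℕ) (A : Type) [Field A] [Algebra ℚ A] [IsAlgClosed A]
    [Fintype ((fQ n).rootSet A)] : Fintype.card ((fQ n).rootSet A) = n + 2 := by
  classical
  rw [← fQ_natDegree n]
  have := card_rootSet_eq_natDegree (K := A) (fQ_irreducible n).separable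
    (IsAlgClosed.splits _)
  convert this

lemma exists_nonreal (n : ℕ) : ∃ z : ℂ, z ∈ (fQ n).rootSet ℂ ∧ z.im ≠ 0 := by
  by_contra hcon
  push Not at hcon
  have h1 : aeval (2 * Complex.I) (fQ n) = -2 := by
    rw [aeval_fQ]
    have : ((2 : ℂ) * Complex.I) ^ 2 + 4 = 0 := by
      rw [mul_pow, Complex.I_sq]; norm_num
    rw [this]; simp
  have hs : ((fQ n).map (algebraMap ℚ ℂ)).Splits := IsAlgClosed.splits _
  have hm : ((fQ n).map (algebraMap ℚ ℂ)).Monic := (fQ_monic n).map _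
  have h2 : aeval (2 * Complex.I) (fQ n) =
      (((fQ n).map (algebraMap ℚ ℂ)).roots.map fun a => 2 * Complex.I - a).prod := by
    rw [← eval_map_algebraMap, hs.eval_eq_prod_roots_of_monic hm]
  have h3 : (2 : ℝ) ^ (n + 2) ≤ ‖aeval (2 * Complex.I) (fQ n)‖ := by
    rw [h2]
    have hcard : Multiset.card ((fQ n).map (algebraMap ℚ ℂ)).roots = n + 2 := by
      rw [← hs.natDegree_eq_card_roots, natDegree_map, fQ_natDegree]
    rw [← hcard]
    have key : ∀ s : Multiset ℂ, (∀ z ∈ s, z.im = 0) →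
        (2 : ℝ) ^ (Multiset.card s) ≤ ‖(s.map fun a => 2 * Complex.I - a).prod‖ := by
      intro s
      induction s using Multiset.induction_on with
      | empty => intro _; simp
      | cons a s ih =>
        intro hs
        rw [Multiset.map_cons, Multiset.prod_cons, Multiset.card_cons, norm_mul, pow_succ, mul_comm]
        have ha : (2 : ℝ) ≤ ‖2 * Complex.I - a‖ := by
          have h := Complex.abs_im_le_norm (2 * Complex.I - a)
          have h' : (2 * Complex.I - a).im = 2 := by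
            simp [hs a (Multiset.mem_cons_self a s)]
          rw [h'] at h
          simpa using h
        exact mul_le_mul ha (ih fun z hz => hs z (Multiset.mem_cons_of_mem hz)) (by positivity)
          (by positivity)
    apply key
    intro z hz
    apply hcon z
    rw [mem_rootSet]
    refine ⟨(fQ_monic n).ne_zero, ?_⟩
    rw [mem_roots hm.ne_zero, IsRoot.def, eval_map_algebraMap] at hz
    exact hz
  rw [h1] at h3
  have h4 : (2 : ℝ) ^ (n + 2) = 4 * 2 ^ n := by ring
  have h5 : (1 : ℝ) ≤ 2 ^ n := one_le_pow₀ (by norm_num)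
  rw [h4] at h3
  norm_num at h3
  linarith

attribute [local instance] Polynomial.Gal.splits_ℚ_ℂ

lemma gal_bijective (n : ℕ) (hp : (n + 2).Prime) :
    Function.Bijective (Gal.galActionHom (fQ n) ℂ) := by
  apply Gal.galActionHom_bijective_of_prime_degree' (fQ_irreducible n)
  · rw [fQ_natDegree]; exact hp
  · obtain ⟨z, hz, him⟩ := exists_nonreal n
    have hmap : ∀ r : (fQ n).rootSet ℝ, ((r : ℝ) : ℂ) ∈ (fQ n).rootSet ℂ := by
      intro r
      have hr := (mem_rootSet.mp r.2).2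
      rw [mem_rootSet]
      refine ⟨(fQ_monic n).ne_zero, ?_⟩
      have : aeval ((r : ℝ) : ℂ) (fQ n) = algebraMap ℝ ℂ (aeval (r : ℝ) (fQ n)) := by
        rw [← aeval_algebraMap_apply]
        rfl
      rw [this, hr, map_zero]
    have := Fintype.card_lt_of_injective_of_notMem
      (fun r : (fQ n).rootSet ℝ => (⟨((r : ℝ) : ℂ), hmap r⟩ : (fQ n).rootSet ℂ))
      (fun r s h => Subtype.ext (Complex.ofReal_injective (congrArg Subtype.val h)))
      (b := ⟨z, hz⟩) (by
        rintro ⟨r, hr⟩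
        apply him
        have hr' : ((r : ℝ) : ℂ) = z := congrArg Subtype.val hr
        rw [← hr']
        simp)
    exact this
  · have h1 := card_real n
    have h2 := card_alg n ℂ
    omega

/-- Every permutation of a finite set is induced by an automorphism of an algebraic closure of
`ℚ`, for a suitable embedding of the set. -/
theorem exists_theta (Ω : Type) [Field Ω] [Algebra ℚ Ω] [IsAlgClosed Ω]
    [Algebra.IsAlgebraic ℚ Ω] (I : Type) [Fintype I] :
    ∃ θ : I → Ω, Function.Injective θ ∧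
      ∀ π : Equiv.Perm I, ∃ σ : Ω ≃ₐ[ℚ] Ω, ∀ x, σ (θ x) = θ (π x) := by
  classical
  obtain ⟨p, hpge, hp⟩ := Nat.exists_infinite_primes (Fintype.card I + 2)
  obtain ⟨n, rfl⟩ : ∃ n, p = n + 2 := ⟨p - 2, by omega⟩
  have hbij := gal_bijective n hp
  haveI : Fact (((fQ n).map (algebraMap ℚ Ω)).Splits) := ⟨IsAlgClosed.splits _⟩
  have hbijΩ : Function.Bijective (Gal.galActionHom (fQ n) Ω) := by
    rw [Nat.bijective_iff_injective_and_card]
    refine ⟨Gal.galActionHom_injective _ _, ?_⟩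
    rw [Nat.card_congr (Equiv.ofBijective _ hbij), Nat.card_perm, Nat.card_perm,
      Nat.card_eq_fintype_card, Nat.card_eq_fintype_card, card_alg, card_alg]
  have hcard : Fintype.card I ≤ Fintype.card ((fQ n).rootSet Ω) := by
    rw [card_alg]; omega
  obtain ⟨ι⟩ := Function.Embedding.nonempty_of_card_le hcard
  haveI : IsAlgClosure ℚ Ω := ⟨inferInstance, inferInstance⟩
  haveI : Normal ℚ Ω := IsAlgClosure.normal ℚ Ω
  refine ⟨fun x => (ι x : Ω), fun x y h => ι.injective (Subtype.ext h), ?_⟩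
  intro π
  obtain ⟨g, hg⟩ := hbijΩ.2 (π.viaFintypeEmbedding ι)
  obtain ⟨σ, hσ⟩ := Gal.restrict_surjective (fQ n) Ω g
  refine ⟨σ, fun x => ?_⟩
  have h1 := Gal.galActionHom_restrict (fQ n) Ω σ (ι x)
  rw [hσ, hg, Equiv.Perm.viaFintypeEmbedding_apply_image] at h1
  exact h1.symm

end Pool.Agent.N9.SM
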